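import Mathlib
import Pool.Agent.MP_ffd2b5_nt.F2
import Pool.Agent.MP_ffd2b5_nt.Per

/-!
MP_ffd2b5_nt: the period length `T_{p_m}` of `√p_m` is smaller than `c √m (log m)^(1/2+a)` for all
`m ≤ N` with at most `exp (C (log N)^(1-a) log log N)` exceptions.
-/

set_option autoImplicit false

namespace Pool.Agent.Results.MP_ffd2b5_nt.FewExceptions

open Pool.Agent.MP_ffd2b5_nt

/-- For all `c > 0` and `0 < a < 1` there is `C` such that for all `N ≥ 16` at most
`exp (C (log N)^(1-a) log log N)` numbers `1 ≤ m ≤ N` satisfy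
`T_{p_m} ≥ c √m (log m)^(1/2+a)`. -/
theorem result (c a : ℝ) (hc : 0 < c) (ha : 0 < a) (ha1 : a < 1) : ∃ C : ℝ, ∀ N : ℕ, 16 ≤ N →
    ((((Finset.Icc 1 N).filter (fun m : ℕ =>
      c * Real.sqrt m * (Real.log m) ^ (1 / 2 + a) ≤ (period (thePrime m) : ℝ))).card : ℕ) : ℝ) ≤
      Real.exp (C * (Real.log N) ^ (1 - a) * Real.log (Real.log N)) :=
  main c a hc ha ha1

end Pool.Agent.Results.MP_ffd2b5_nt.FewExceptions
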